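import Pool.Agent.W313.BMX.Stm

/-! BX-TWOB: symbols at the prime 2. -/

set_option autoImplicit false

namespace Pool.Agent.W108.BMX

open Polynomial
open Pool.Agent.W313.BMX

/-- an integer which is `1` modulo `8` is a square -/
theorem sq_of_mod {a : ℤ} (h : a % 8 = 1) : ∃ z : ℚ_[2], z ^ 2 = (a : ℚ_[2]) := by
  obtain ⟨k, hk⟩ : ∃ k, a - 1 = 8 * k := ⟨(a - 1) / 8, by omega⟩
  have h2 : ‖(2 : ℤ_[2])‖ = 1 / 2 := by
    have := PadicInt.norm_p (p := 2)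
    rw [show ((2 : ℕ) : ℤ_[2]) = 2 by norm_num] at this
    rw [this]
    norm_num
  have h1 : ‖((X ^ 2 - C (a : ℤ_[2]) : ℤ_[2][X])).aeval (1 : ℤ_[2])‖ <
      ‖((X ^ 2 - C (a : ℤ_[2]) : ℤ_[2][X])).derivative.aeval (1 : ℤ_[2])‖ ^ 2 := by
    have e1 : ((X ^ 2 - C (a : ℤ_[2]) : ℤ_[2][X])).aeval (1 : ℤ_[2]) = -(2 ^ 3 * (k : ℤ_[2])) := by
      have hk' : (a : ℤ_[2]) - 1 = 8 * (k : ℤ_[2]) := by exact_mod_cast congrArg (Int.cast (R := ℤ_[2])) hk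
      simp
      linear_combination -hk'
    have e2 : ((X ^ 2 - C (a : ℤ_[2]) : ℤ_[2][X])).derivative.aeval (1 : ℤ_[2]) = 2 := by
      simp [one_add_one_eq_two]
    rw [e1, e2, norm_neg, norm_mul, norm_pow, h2]
    have h3 : ‖(k : ℤ_[2])‖ ≤ 1 := PadicInt.norm_le_one _
    nlinarith
  obtain ⟨z, hz, -⟩ := hensels_lemma h1
  refine ⟨(z : ℚ_[2]), ?_⟩
  have h4 : z ^ 2 = (a : ℤ_[2]) := by
    simp at hz
    linear_combination hz
  have h5 := congrArg (fun t : ℤ_[2] => (t : ℚ_[2])) h4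
  simpa using h5

/-- a nontrivial solution can be scaled -/
theorem scale {a b : ℤ} (h : Splits (a : ℚ_[2]) (b : ℚ_[2])) :
    ∃ X Y Z : ℤ_[2], (X = 1 ∨ Y = 1 ∨ Z = 1) ∧
      Z ^ 2 = (a : ℤ_[2]) * X ^ 2 + (b : ℤ_[2]) * Y ^ 2 := by
  obtain ⟨x, y, z, hne, he⟩ := h
  have key : ∃ w : ℚ_[2], w ≠ 0 ∧ (w = x ∨ w = y ∨ w = z) ∧ ‖x‖ ≤ ‖w‖ ∧ ‖y‖ ≤ ‖w‖ ∧ ‖z‖ ≤ ‖w‖ := by
    have h0 : ∀ w : ℚ_[2], ‖x‖ ≤ ‖w‖ → ‖y‖ ≤ ‖w‖ → ‖z‖ ≤ ‖w‖ → w ≠ 0 := by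
      rintro w h1 h2 h3 rfl
      rw [norm_zero] at h1 h2 h3
      rw [norm_le_zero_iff] at h1 h2 h3
      rcases hne with h | h | h
      · exact h h1
      · exact h h2
      · exact h h3
    rcases le_total ‖x‖ ‖y‖ with h1 | h1
    · rcases le_total ‖y‖ ‖z‖ with h2 | h2
      · exact ⟨z, h0 z (h1.trans h2) h2 le_rfl, Or.inr (Or.inr rfl), h1.trans h2, h2, le_rfl⟩
      · exact ⟨y, h0 y h1 le_rfl h2, Or.inr (Or.inl rfl), h1, le_rfl, h2⟩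
    · rcases le_total ‖x‖ ‖z‖ with h2 | h2
      · exact ⟨z, h0 z h2 (h1.trans h2) le_rfl, Or.inr (Or.inr rfl), h2, h1.trans h2, le_rfl⟩
      · exact ⟨x, h0 x le_rfl h1 h2, Or.inl rfl, le_rfl, h1, h2⟩
  obtain ⟨w, hw, hor, hx, hy, hz⟩ := key
  have hw' : 0 < ‖w‖ := norm_pos_iff.2 hw
  have hle : ∀ t : ℚ_[2], ‖t‖ ≤ ‖w‖ → ‖t / w‖ ≤ 1 := by
    intro t ht
    rw [norm_div]
    exact (div_le_one hw').2 ht
  refine ⟨⟨x / w, hle x hx⟩, ⟨y / w, hle y hy⟩, ⟨z / w, hle z hz⟩, ?_, ?_⟩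
  · rcases hor with h | h | h
    · left
      apply Subtype.ext
      show x / w = 1
      rw [h] at hw ⊢
      exact div_self hw
    · right; left
      apply Subtype.ext
      show y / w = 1
      rw [h] at hw ⊢
      exact div_self hw
    · right; right
      apply Subtype.ext
      show z / w = 1
      rw [h] at hw ⊢
      exact div_self hw
  · apply Subtype.ext
    push_cast
    show (z / w) ^ 2 = (a : ℚ_[2]) * (x / w) ^ 2 + (b : ℚ_[2]) * (y / w) ^ 2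
    rw [div_pow, div_pow, div_pow, he]
    ring

theorem to_zmod {a b : ℤ} (h : Splits (a : ℚ_[2]) (b : ℚ_[2])) :
    ∃ X Y Z : ZMod 16, (X = 1 ∨ Y = 1 ∨ Z = 1) ∧
      Z ^ 2 = (a : ZMod 16) * X ^ 2 + (b : ZMod 16) * Y ^ 2 := by
  obtain ⟨X, Y, Z, h1, h2⟩ := scale h
  let φ : ℤ_[2] →+* ZMod (2 ^ 4) := PadicInt.toZModPow 4
  refine ⟨φ X, φ Y, φ Z, ?_, ?_⟩
  · rcases h1 with h | h | h
    · left; rw [h]; exact map_one φ
    · right; left; rw [h]; exact map_one φ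
    · right; right; rw [h]; exact map_one φ
  · have h3 := congrArg φ h2
    rw [map_pow, map_add, map_mul, map_mul, map_pow, map_pow, map_intCast, map_intCast] at h3
    exact h3

theorem no_sol (a b : ZMod 16)
    (h1 : ∀ Y Z : ZMod 16, Z ^ 2 ≠ a * 1 ^ 2 + b * Y ^ 2)
    (h2 : ∀ X Z : ZMod 16, Z ^ 2 ≠ a * X ^ 2 + b * 1 ^ 2)
    (h3 : ∀ X Y : ZMod 16, 1 ^ 2 ≠ a * X ^ 2 + b * Y ^ 2) :
    ¬ ∃ X Y Z : ZMod 16, (X = 1 ∨ Y = 1 ∨ Z = 1) ∧ Z ^ 2 = a * X ^ 2 + b * Y ^ 2 := by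
  rintro ⟨X, Y, Z, h, e⟩
  rcases h with h | h | h
  · subst h; exact h1 Y Z e
  · subst h; exact h2 X Z e
  · subst h; exact h3 X Y e

theorem cast16 {a : ℤ} {n : ℕ} (h : a % 16 = n) : (a : ZMod 16) = (n : ZMod 16) := by
  have : (a : ZMod 16) = ((n : ℤ) : ZMod 16) := by
    rw [ZMod.intCast_eq_intCast_iff]
    show a % _ = _
    push_cast
    rw [h]
    omega
  simpa using this

theorem two4 : S_TWO4 := by
  intro c hc
  refine ⟨⟨fun h => ?_, fun h => ?_⟩, ⟨fun h => ?_, fun h => ?_⟩⟩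
  · by_contra hne
    have h' : Splits ((c : ℤ) : ℚ_[2]) (((-1 : ℤ)) : ℚ_[2]) := by simpa using h
    have h2 := to_zmod h'
    have hcas : c % 16 = (3 : ℕ) ∨ c % 16 = (7 : ℕ) ∨ c % 16 = (11 : ℕ) ∨ c % 16 = (15 : ℕ) := by
      omega
    rcases hcas with h3 | h3 | h3 | h3 <;> rw [cast16 h3] at h2 <;> revert h2 <;>
      apply no_sol <;> decide
  · rcases (by omega : c % 8 = 1 ∨ c % 8 = 5) with h1 | h1
    · obtain ⟨z, hz⟩ := sq_of_mod h1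
      exact ⟨1, 0, z, Or.inl one_ne_zero, by rw [hz]; ring⟩
    · obtain ⟨z, hz⟩ := sq_of_mod (a := c - 4) (by omega)
      exact ⟨1, 2, z, Or.inl one_ne_zero, by rw [hz]; push_cast; ring⟩
  · by_contra hne
    have h' : Splits ((2 * c : ℤ) : ℚ_[2]) (((-1 : ℤ)) : ℚ_[2]) := by simpa using h
    have h2 := to_zmod h'
    have hcas : (2 * c) % 16 = (6 : ℕ) ∨ (2 * c) % 16 = (14 : ℕ) := by
      omega
    rcases hcas with h3 | h3 <;> rw [cast16 h3] at h2 <;> revert h2 <;>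
      apply no_sol <;> decide
  · obtain ⟨z, hz⟩ := sq_of_mod (a := 2 * c - 1) (by omega)
    exact ⟨1, 1, z, Or.inl one_ne_zero, by rw [hz]; push_cast; ring⟩

theorem two5 : S_TWO5 := by
  intro c hc
  refine ⟨⟨fun h => ?_, fun h => ?_⟩, ⟨fun h => ?_, fun h => ?_⟩⟩
  · by_contra hne
    have h' : Splits ((c : ℤ) : ℚ_[2]) (((2 : ℤ)) : ℚ_[2]) := by simpa using h
    have h2 := to_zmod h'
    have hcas : c % 16 = (3 : ℕ) ∨ c % 16 = (5 : ℕ) ∨ c % 16 = (11 : ℕ) ∨ c % 16 = (13 : ℕ) := by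
      omega
    rcases hcas with h3 | h3 | h3 | h3 <;> rw [cast16 h3] at h2 <;> revert h2 <;>
      apply no_sol <;> decide
  · rcases h with h1 | h1
    · obtain ⟨z, hz⟩ := sq_of_mod h1
      exact ⟨1, 0, z, Or.inl one_ne_zero, by rw [hz]; ring⟩
    · obtain ⟨z, hz⟩ := sq_of_mod (a := c + 2) (by omega)
      exact ⟨1, 1, z, Or.inl one_ne_zero, by rw [hz]; push_cast; ring⟩
  · by_contra hne
    have h' : Splits ((2 * c : ℤ) : ℚ_[2]) (((2 : ℤ)) : ℚ_[2]) := by simpa using h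
    have h2 := to_zmod h'
    have hcas : (2 * c) % 16 = (6 : ℕ) ∨ (2 * c) % 16 = (10 : ℕ) := by
      omega
    rcases hcas with h3 | h3 <;> rw [cast16 h3] at h2 <;> revert h2 <;>
      apply no_sol <;> decide
  · rcases h with h1 | h1
    · obtain ⟨y, hy⟩ := sq_of_mod (a := 2 - c) (by omega)
      exact ⟨1, y, 2, Or.inl one_ne_zero, by rw [hy]; push_cast; ring⟩
    · obtain ⟨y, hy⟩ := sq_of_mod (a := 8 - c) (by omega)
      exact ⟨1, y, 4, Or.inl one_ne_zero, by rw [hy]; push_cast; ring⟩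

end Pool.Agent.W108.BMX
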